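import Mathlib
import Pool.Agent.R821.Duality
import Pool.Agent.TH264.Bridge.PW

/-!
# Precompact abelian groups: completion, cellularity, characters
-/

set_option autoImplicit false

open Filter Topology Pointwise MeasureTheory

namespace Pool.Agent.K3h46.BQ

open Pool.Agent.R821

universe u v

/-- precompactness, additively -/
def PreC (G : Type u) [AddCommGroup G] [TopologicalSpace G] : Prop :=
  ∀ U ∈ 𝓝 (0 : G), ∃ E : Set G, E.Finite ∧ U + E = Set.univ

/-- the completion of a precompact group -/
theorem exists_completion (V : Type u) [AddCommGroup V] [TopologicalSpace V]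
    [IsTopologicalAddGroup V] (h : PreC V) :
    ∃ (K : Type u) (_ : AddCommGroup K) (_ : TopologicalSpace K) (_ : IsTopologicalAddGroup K)
      (_ : CompactSpace K) (_ : T2Space K) (i : V →+ K), IsInducing i ∧ DenseRange i := by
  let _ : UniformSpace V := IsTopologicalAddGroup.rightUniformSpace V
  have hu : IsUniformAddGroup V := isUniformAddGroup_of_addCommGroup
  have htb : TotallyBounded (Set.univ : Set V) := by
    rw [totallyBounded_iff_subset_finite_iUnion_nhds_zero]
    intro U hU
    obtain ⟨s, hs, hUs⟩ := h U hU
    refine ⟨s, hs, fun y _ => ?_⟩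
    have hy : y ∈ U + s := by rw [hUs]; trivial
    obtain ⟨u, hu, e, he, rfl⟩ := hy
    refine Set.mem_biUnion he ?_
    refine Set.mem_vadd_set.2 ⟨u, hu, ?_⟩
    change e + u = u + e
    exact add_comm _ _
  let K := UniformSpace.Completion V
  have hK : CompactSpace K := by
    refine ⟨isCompact_iff_totallyBounded_isComplete.2 ⟨?_, isComplete_univ⟩⟩
    have h1 := (htb.image (UniformSpace.Completion.uniformContinuous_coe V)).closure
    rw [Set.image_univ] at h1
    rw [← UniformSpace.Completion.denseRange_coe.closure_range]
    exact h1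
  exact ⟨K, inferInstance, inferInstance, inferInstance, hK, inferInstance,
    { toFun := fun v => (v : K), map_zero' := UniformSpace.Completion.coe_zero,
      map_add' := UniformSpace.Completion.coe_add },
    UniformSpace.Completion.isUniformInducing_coe V |>.isInducing,
    UniformSpace.Completion.denseRange_coe⟩

/-- precompact groups satisfy the countable chain condition -/
theorem countable_of_disjoint {V : Type u} [AddCommGroup V] [TopologicalSpace V]
    [IsTopologicalAddGroup V] (h : PreC V) {ι : Type v} (U : ι → Set V) (hU : ∀ i, IsOpen (U i))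
    (hne : ∀ i, (U i).Nonempty) (hd : Pairwise fun i j => Disjoint (U i) (U j)) : Countable ι := by
  obtain ⟨K, _, _, _, _, _, i, hi, hi2⟩ := exists_completion V h
  let _ : MeasurableSpace K := borel K
  have : BorelSpace K := ⟨rfl⟩
  let μ : Measure K := Measure.addHaarMeasure ⊤
  have h1 : ∀ j, ∃ O : Set K, IsOpen O ∧ i ⁻¹' O = U j := fun j => hi.isOpen_iff.1 (hU j)
  choose O hO hOU using h1
  have hOne : ∀ j, (O j).Nonempty := by
    intro j
    obtain ⟨x, hx⟩ := hne j
    rw [← hOU] at hx
    exact ⟨i x, hx⟩
  have hOd : Pairwise (Function.onFun Disjoint O) := by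
    intro j k hjk
    change Disjoint (O j) (O k)
    rw [Set.disjoint_iff_inter_eq_empty]
    by_contra hcon
    obtain ⟨x, hx⟩ := hi2.exists_mem_open ((hO j).inter (hO k)) (Set.nonempty_iff_ne_empty.2 hcon)
    have h2 : x ∈ U j := by rw [← hOU]; exact hx.1
    have h3 : x ∈ U k := by rw [← hOU]; exact hx.2
    exact Set.disjoint_left.1 (hd hjk) h2 h3
  have h2 := Measure.countable_meas_pos_of_disjoint_iUnion (μ := μ) (fun j => (hO j).measurableSet) hOd
  have h3 : {j | 0 < μ (O j)} = Set.univ := by
    refine Set.eq_univ_of_forall fun j => ?_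
    exact (hO j).measure_pos μ (hOne j)
  rw [h3] at h2
  exact Set.countable_univ_iff.1 h2

/-! ### The logarithm -/

/-- the inverse of the isomorphism of `ℝ/ℤ` with the unit circle -/
noncomputable def clog (z : Circle) : T := (AddCircle.homeomorphCircle (T := (1 : ℝ)) one_ne_zero).symm z

theorem toCircle_clog (z : Circle) : AddCircle.toCircle (clog z) = z := by
  rw [clog, ← AddCircle.homeomorphCircle_apply one_ne_zero]
  exact Homeomorph.apply_symm_apply _ _

theorem toCircle_inj {a b : T} (h : AddCircle.toCircle a = AddCircle.toCircle b) : a = b :=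
  AddCircle.injective_toCircle one_ne_zero h

theorem clog_toCircle (a : T) : clog (AddCircle.toCircle a) = a :=
  toCircle_inj (toCircle_clog _)

theorem continuous_clog : Continuous clog :=
  (AddCircle.homeomorphCircle (T := (1 : ℝ)) one_ne_zero).symm.continuous

theorem clog_mul (z w : Circle) : clog (z * w) = clog z + clog w := by
  apply toCircle_inj
  rw [AddCircle.toCircle_add, toCircle_clog, toCircle_clog, toCircle_clog]

theorem clog_one : clog 1 = 0 := by
  apply toCircle_inj
  rw [toCircle_clog, AddCircle.toCircle_zero]

theorem clog_eq_zero {z : Circle} (h : clog z = 0) : z = 1 := by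
  rw [← toCircle_clog z, h, AddCircle.toCircle_zero]

/-- the group of continuous characters -/
def chars (V : Type u) [AddCommGroup V] [TopologicalSpace V] : AddSubgroup (V →+ T) where
  carrier := {χ | Continuous χ}
  zero_mem' := continuous_const
  add_mem' := fun {a b} ha hb => Continuous.add (f := a) (g := b) ha hb
  neg_mem' := fun {a} ha => Continuous.neg (f := a) ha

/-- the characters of a compact group separate points -/
theorem chars_sep (K : Type u) [AddCommGroup K] [TopologicalSpace K] [IsTopologicalAddGroup K]
    [CompactSpace K] [T2Space K] (k : K) (hk : k ≠ 0) : ∃ χ : chars K, (χ : K →+ T) k ≠ 0 := by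
  have h1 : T2Space (Multiplicative K) := ‹T2Space K›
  have h2 : CompactSpace (Multiplicative K) := ‹CompactSpace K›
  obtain ⟨χ, hχ, hχk⟩ := Pool.Agent.TH264.Bridge.char_sep_mul (Multiplicative K)
    (Multiplicative.ofAdd k) (fun h0 => hk (Multiplicative.ofAdd.injective h0))
  refine ⟨⟨{ toFun := fun x => clog (χ (Multiplicative.ofAdd x))
             map_zero' := by rw [ofAdd_zero, map_one, clog_one]
             map_add' := fun x y => by rw [ofAdd_add, map_mul, clog_mul] }, ?_⟩, fun h => ?_⟩
  · exact continuous_clog.comp hχ
  · exact hχk (clog_eq_zero h)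

/-- the topology of a precompact Hausdorff abelian group is induced by its characters -/
theorem inducing_chars (V : Type u) [AddCommGroup V] [TopologicalSpace V]
    [IsTopologicalAddGroup V] (h : PreC V) :
    IsInducing fun (v : V) (χ : chars V) => (χ : V →+ T) v := by
  obtain ⟨K, _, _, _, _, _, i, hi, -⟩ := exists_completion V h
  have h1 : Continuous fun (k : K) (χ : chars K) => (χ : K →+ T) k := continuous_pi fun χ => χ.2
  have h2 : Function.Injective fun (k : K) (χ : chars K) => (χ : K →+ T) k := by
    intro a b hab
    by_contra hne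
    obtain ⟨χ, hχ⟩ := chars_sep K (a - b) (sub_ne_zero.2 hne)
    apply hχ
    rw [map_sub, sub_eq_zero]
    exact congrFun hab χ
  have h3 : IsInducing fun (k : K) (χ : chars K) => (χ : K →+ T) k :=
    (h1.isClosedEmbedding h2).isInducing
  have h4 := h3.comp hi
  let g : (chars V → T) → (chars K → T) := fun f χ =>
    f ⟨(χ : K →+ T).comp i, χ.2.comp hi.continuous⟩
  have hg : Continuous g := continuous_pi fun χ => continuous_apply _
  exact IsInducing.of_comp (g := g) (continuous_pi fun χ => χ.2) hg h4

end Pool.Agent.K3h46.BQ
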