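import Mathlib
import Pool.Agent.R821.Duality

/-!
# Compact sets of characters of precompact Baire groups are finite

* `exists_family`: in an infinite compact Hausdorff space there are a point and countably many infinite
  sets such that every neighbourhood of the point contains one of these sets.
* `finite_of_compact_chars`: a set of continuous characters of a precompact abelian group with the Baire
  property which is compact in the topology of pointwise convergence is finite.
-/

set_option autoImplicit false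

open Filter Topology Pointwise

namespace Pool.Agent.K3h46.BQ

open Pool.Agent.R821

universe u v

section TL

variable {X : Type u} [TopologicalSpace X] [CompactSpace X] [T2Space X]

theorem family_scattered [Infinite X]
    (hsc : ∀ Q : Set X, Q.Nonempty → ∃ q ∈ Q, ∃ W ∈ 𝓝 q, W ∩ Q ⊆ {q}) :
    ∃ (x₀ : X) (V : ℕ → Set X), (∀ k, (V k).Infinite) ∧ ∀ O ∈ 𝓝 x₀, ∃ k, V k ⊆ O := by
  classical
  let Q : Set X := {x | ¬ IsOpen ({x} : Set X)}
  have hQ : Q.Nonempty := by
    by_contra hcon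
    rw [Set.not_nonempty_iff_eq_empty] at hcon
    have hall : ∀ x : X, IsOpen ({x} : Set X) := by
      intro x
      by_contra hx
      have : x ∈ Q := hx
      rw [hcon] at this
      exact this
    have hd : DiscreteTopology X := discreteTopology_iff_isOpen_singleton.2 hall
    have : Finite X := finite_of_compact_of_discrete
    exact not_finite X
  obtain ⟨q, hq, W, hW, hWQ⟩ := hsc Q hQ
  obtain ⟨W', ⟨hW', hW'c⟩, hW'W⟩ := (closed_nhds_basis q).mem_iff.1 hW
  have hW'W : W' ⊆ W := hW'W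
  have hne : (𝓝[≠] q).NeBot := by
    rw [neBot_iff]
    intro h
    exact hq ((isOpen_singleton_iff_punctured_nhds q).2 h)
  have hinf : W'.Infinite := infinite_of_mem_nhds q hW'
  have hinf2 : (W' \ {q}).Infinite := hinf.sdiff (Set.finite_singleton q)
  let w : ℕ ↪ ↥(W' \ {q}) := Set.Infinite.natEmbedding _ hinf2
  refine ⟨q, fun k => (fun j => (w j : X)) '' Set.Ici k, fun k => ?_, fun O hO => ?_⟩
  · refine Set.Infinite.image ?_ (Set.Ici_infinite k)
    exact (Subtype.val_injective.comp w.injective).injOn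
  · have hcpt : IsCompact (W' \ interior O) := (hW'c.sdiff isOpen_interior).isCompact
    have hsing : ∀ x ∈ W' \ interior O, ({x} : Set X) ∈ 𝓝 x := by
      rintro x ⟨hx, hxO⟩
      have h1 : x ∉ Q := by
        intro hxQ
        have h2 : x = q := hWQ ⟨hW'W hx, hxQ⟩
        rw [h2] at hxO
        exact hxO (mem_interior_iff_mem_nhds.2 hO)
      have h2 : IsOpen ({x} : Set X) := not_not.1 h1
      exact h2.mem_nhds rfl
    obtain ⟨t, -, ht⟩ := hcpt.elim_nhds_subcover (fun x => ({x} : Set X)) hsing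
    have hfin : (W' \ interior O).Finite := by
      refine t.finite_toSet.subset fun x hx => ?_
      obtain ⟨y, hy, hxy⟩ := Set.mem_iUnion₂.1 (ht hx)
      rw [Set.mem_singleton_iff.1 hxy]
      exact hy
    have hfin2 : {j : ℕ | (w j : X) ∉ O}.Finite := by
      refine Set.Finite.of_finite_image (f := fun j => (w j : X)) (hfin.subset ?_)
        (Subtype.val_injective.comp w.injective).injOn
      rintro _ ⟨j, hj, rfl⟩
      exact ⟨(w j).2.1, fun h => hj (interior_subset h)⟩
    obtain ⟨k, hk⟩ := hfin2.bddAbove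
    refine ⟨k + 1, ?_⟩
    rintro _ ⟨j, hj, rfl⟩
    by_contra hcon
    have h1 := hk hcon
    have h2 : k + 1 ≤ j := hj
    omega

theorem step {Q : Set X} (hQ : ∀ q ∈ Q, ∀ W ∈ 𝓝 q, ¬ W ∩ Q ⊆ {q}) (U : Set X) (hU : IsOpen U)
    (hUQ : (U ∩ Q).Nonempty) : ∃ U0 U1 : Set X, (IsOpen U0 ∧ (U0 ∩ Q).Nonempty) ∧
      (IsOpen U1 ∧ (U1 ∩ Q).Nonempty) ∧ closure U0 ⊆ U ∧ closure U1 ⊆ U ∧
      Disjoint (closure U0) (closure U1) := by
  obtain ⟨q, hqU, hqQ⟩ := hUQ
  obtain ⟨q', ⟨hq'U, hq'Q⟩, hne⟩ := Set.not_subset.1 (hQ q hqQ U (hU.mem_nhds hqU))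
  have hne' : q ≠ q' := fun h => hne (by rw [h]; rfl)
  obtain ⟨A, B, hA, hB, hqA, hqB, hAB⟩ := t2_separation hne'
  have hreg : ∀ (x : X) (O : Set X), IsOpen O → x ∈ O → ∃ O' : Set X, IsOpen O' ∧ x ∈ O' ∧
      closure O' ⊆ O := by
    intro x O hO hx
    obtain ⟨C, ⟨hC, hCc⟩, hCO⟩ := (closed_nhds_basis x).mem_iff.1 (hO.mem_nhds hx)
    exact ⟨interior C, isOpen_interior, mem_interior_iff_mem_nhds.2 hC,
      (closure_minimal interior_subset hCc).trans hCO⟩
  obtain ⟨U0, h1, h2, h3⟩ := hreg q (U ∩ A) (hU.inter hA) ⟨hqU, hqA⟩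
  obtain ⟨U1, h4, h5, h6⟩ := hreg q' (U ∩ B) (hU.inter hB) ⟨hq'U, hqB⟩
  refine ⟨U0, U1, ⟨h1, q, h2, hqQ⟩, ⟨h4, q', h5, hq'Q⟩, h3.trans Set.inter_subset_left,
    h6.trans Set.inter_subset_left, ?_⟩
  exact hAB.mono (h3.trans Set.inter_subset_right) (h6.trans Set.inter_subset_right)

theorem family_crowded {Q : Set X} (hQ0 : Q.Nonempty)
    (hQ : ∀ q ∈ Q, ∀ W ∈ 𝓝 q, ¬ W ∩ Q ⊆ {q}) :
    ∃ (x₀ : X) (V : List Bool → Set X), (∀ k, (V k).Infinite) ∧ ∀ O ∈ 𝓝 x₀, ∃ k, V k ⊆ O := by
  classical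
  have hstep : ∀ U : {U : Set X // IsOpen U ∧ (U ∩ Q).Nonempty},
      ∃ P : {U : Set X // IsOpen U ∧ (U ∩ Q).Nonempty} × {U : Set X // IsOpen U ∧ (U ∩ Q).Nonempty},
        closure P.1.1 ⊆ U.1 ∧ closure P.2.1 ⊆ U.1 ∧
        Disjoint (closure P.1.1) (closure P.2.1) := by
    intro U
    obtain ⟨U0, U1, h1, h2, h3, h4, h5⟩ := step hQ U.1 U.2.1 U.2.2
    exact ⟨(⟨U0, h1⟩, ⟨U1, h2⟩), h3, h4, h5⟩
  choose P hP1 hP2 hP3 using hstep
  obtain ⟨A, hA1, hA2⟩ : ∃ A : List Bool → {U : Set X // IsOpen U ∧ (U ∩ Q).Nonempty},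
      (∀ s, A (true :: s) = (P (A s)).1) ∧ ∀ s, A (false :: s) = (P (A s)).2 :=
    ⟨fun s => List.rec ⟨Set.univ, isOpen_univ, by rwa [Set.univ_inter]⟩
      (fun b _ U => if b then (P U).1 else (P U).2) s, fun s => rfl, fun s => rfl⟩
  let 𝒵 : Set (Set X) := {Z | IsClosed Z ∧ ∀ s, (Z ∩ closure (A s).1).Nonempty}
  obtain ⟨Z, hZ⟩ : ∃ Z, Minimal (· ∈ 𝒵) Z := by
    apply zorn_superset
    intro c hc hchain
    rcases c.eq_empty_or_nonempty with rfl | hne
    · refine ⟨Set.univ, ⟨isClosed_univ, fun s => ?_⟩, fun s hs => hs.elim⟩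
      rw [Set.univ_inter]
      obtain ⟨x, hx, -⟩ := (A s).2.2
      exact ⟨x, subset_closure hx⟩
    · refine ⟨⋂₀ c, ⟨isClosed_sInter fun Z hZ => (hc hZ).1, fun s => ?_⟩,
        fun Z hZ => Set.sInter_subset_of_mem hZ⟩
      have hnec : Nonempty c := hne.to_subtype
      have h1 : (⋂ Z : c, ((Z : Set X) ∩ closure (A s).1)).Nonempty := by
        apply IsCompact.nonempty_iInter_of_directed_nonempty_isCompact_isClosed
        · intro Z1 Z2
          rcases hchain.total Z1.2 Z2.2 with h | h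
          · exact ⟨Z1, le_refl _, Set.inter_subset_inter_left _ h⟩
          · exact ⟨Z2, Set.inter_subset_inter_left _ h, le_refl _⟩
        · intro Z1
          exact (hc Z1.2).2 s
        · intro Z1
          exact ((hc Z1.2).1.inter isClosed_closure).isCompact
        · intro Z1
          exact (hc Z1.2).1.inter isClosed_closure
      obtain ⟨x, hx⟩ := h1
      rw [Set.mem_iInter] at hx
      obtain ⟨Z0⟩ := hnec
      exact ⟨x, fun Z1 hZ1 => (hx ⟨Z1, hZ1⟩).1, (hx Z0).2⟩
  obtain ⟨⟨hZc, hZne⟩, hZmin⟩ := hZ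
  obtain ⟨x₀, hx₀, -⟩ := hZne []
  refine ⟨x₀, fun s => Z ∩ closure (A s).1, fun s => ?_, fun O hO => ?_⟩
  · have key : ∀ (n : ℕ) (s : List Bool), (n : ℕ∞) ≤ (Z ∩ closure (A s).1).encard := by
      intro n
      induction n with
      | zero => intro s; simp
      | succ n ih =>
        intro s
        have h1 : Disjoint (Z ∩ closure (A (true :: s)).1) (Z ∩ closure (A (false :: s)).1) := by
          refine (hP3 (A s)).mono ?_ ?_
          · rw [← hA1]; exact Set.inter_subset_right
          · rw [← hA2]; exact Set.inter_subset_right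
        have h2 : (Z ∩ closure (A (true :: s)).1) ∪ (Z ∩ closure (A (false :: s)).1) ⊆
            Z ∩ closure (A s).1 := by
          refine Set.union_subset ?_ ?_
          · refine Set.inter_subset_inter_right _ ?_
            rw [hA1]
            exact (hP1 (A s)).trans subset_closure
          · refine Set.inter_subset_inter_right _ ?_
            rw [hA2]
            exact (hP2 (A s)).trans subset_closure
        have h3 : (1 : ℕ∞) ≤ (Z ∩ closure (A (false :: s)).1).encard := by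
          rw [Set.one_le_encard_iff_nonempty]
          exact hZne (false :: s)
        have h4 : ((n + 1 : ℕ) : ℕ∞) ≤ (Z ∩ closure (A (true :: s)).1).encard +
              (Z ∩ closure (A (false :: s)).1).encard := by
          push_cast
          exact add_le_add (ih (true :: s)) h3
        rw [← Set.encard_union_eq h1] at h4
        exact h4.trans (Set.encard_le_encard h2)
    rw [← Set.encard_eq_top_iff]
    exact ENat.eq_top_iff_forall_ge.2 fun n => key n s
  · by_contra hcon
    push Not at hcon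
    have h1 : Z \ interior O ∈ 𝒵 := by
      refine ⟨hZc.sdiff isOpen_interior, fun s => ?_⟩
      obtain ⟨x, ⟨hx1, hx2⟩, hx3⟩ := Set.not_subset.1 (hcon s)
      exact ⟨x, ⟨hx1, fun h => hx3 (interior_subset h)⟩, hx2⟩
    have h2 := hZmin h1 Set.diff_subset hx₀
    exact h2.2 (mem_interior_iff_mem_nhds.2 hO)

/-- In an infinite compact Hausdorff space there are a point and countably many infinite sets such that
every neighbourhood of the point contains one of these sets. -/
theorem exists_family [Infinite X] :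
    ∃ (ι : Type) (_ : Countable ι) (x₀ : X) (V : ι → Set X), (∀ k, (V k).Infinite) ∧
      ∀ O ∈ 𝓝 x₀, ∃ k, V k ⊆ O := by
  by_cases hsc : ∀ Q : Set X, Q.Nonempty → ∃ q ∈ Q, ∃ W ∈ 𝓝 q, W ∩ Q ⊆ {q}
  · obtain ⟨x₀, V, h1, h2⟩ := family_scattered hsc
    exact ⟨ℕ, inferInstance, x₀, V, h1, h2⟩
  · push Not at hsc
    obtain ⟨Q, hQ0, hQ⟩ := hsc
    obtain ⟨x₀, V, h1, h2⟩ := family_crowded hQ0 hQ
    exact ⟨List Bool, inferInstance, x₀, V, h1, h2⟩

end TL

/-- A compact space of continuous characters of a precompact abelian group with the Baire property is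
finite. -/
theorem finite_of_compact_chars {G : Type v} [AddCommGroup G] [TopologicalSpace G]
    [IsTopologicalAddGroup G] [BaireSpace G]
    (hG : ∀ U ∈ 𝓝 (0 : G), ∃ E : Set G, E.Finite ∧ U + E = Set.univ)
    {X : Type u} [TopologicalSpace X] [CompactSpace X] [T2Space X] (ev : X → G →+ T)
    (hev : ∀ x, Continuous (ev x)) (hev' : ∀ g, Continuous fun x => ev x g)
    (hinj : Function.Injective ev) : Finite X := by
  classical
  by_contra hfin
  have hinf : Infinite X := not_finite_iff_infinite.1 hfin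
  obtain ⟨ι, _, x₀, V, hV, hV'⟩ := exists_family (X := X)
  let F : ι → Set G := fun k => {g | ∀ x ∈ V k, ∀ y ∈ V k, ‖ev x g - ev y g‖ ≤ 1 / 16}
  have hFc : ∀ k, IsClosed (F k) := by
    intro k
    have h1 : F k = ⋂ x ∈ V k, ⋂ y ∈ V k, {g | ‖ev x g - ev y g‖ ≤ 1 / 16} := by
      ext g
      simp [F]
    rw [h1]
    exact isClosed_biInter fun x _ => isClosed_biInter fun y _ =>
      isClosed_le ((hev x).sub (hev y)).norm continuous_const
  have hFU : ⋃ k, F k = Set.univ := by
    refine Set.eq_univ_of_forall fun g => ?_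
    have h1 : {x | ‖ev x g - ev x₀ g‖ < 1 / 32} ∈ 𝓝 x₀ := by
      have h2 : IsOpen {x | ‖ev x g - ev x₀ g‖ < 1 / 32} :=
        isOpen_lt ((hev' g).sub continuous_const).norm continuous_const
      exact h2.mem_nhds (by simp)
    obtain ⟨k, hk⟩ := hV' _ h1
    refine Set.mem_iUnion.2 ⟨k, fun x hx y hy => ?_⟩
    have h2 : ‖ev x g - ev x₀ g‖ < 1 / 32 := hk hx
    have h3 : ‖ev y g - ev x₀ g‖ < 1 / 32 := hk hy
    have h4 : ev x g - ev y g = (ev x g - ev x₀ g) - (ev y g - ev x₀ g) := by abel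
    rw [h4]
    refine (norm_sub_le _ _).trans ?_
    linarith
  obtain ⟨k, g₀, hg₀⟩ := nonempty_interior_of_iUnion_of_closed hFc hFU
  let O : Set G := {o | g₀ + o ∈ interior (F k)}
  have hO : O ∈ 𝓝 (0 : G) := by
    have h1 : IsOpen O := isOpen_interior.preimage (continuous_const_add g₀)
    refine h1.mem_nhds ?_
    change g₀ + 0 ∈ interior (F k)
    rwa [add_zero]
  have hsmall : ∀ o ∈ O, ∀ x ∈ V k, ∀ y ∈ V k, ‖ev x o - ev y o‖ ≤ 1 / 8 := by
    intro o ho x hx y hy
    have h1 : ‖ev x (g₀ + o) - ev y (g₀ + o)‖ ≤ 1 / 16 := interior_subset ho x hx y hy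
    have h2 : ‖ev x g₀ - ev y g₀‖ ≤ 1 / 16 := interior_subset hg₀ x hx y hy
    have h4 : ev x o - ev y o = (ev x (g₀ + o) - ev y (g₀ + o)) - (ev x g₀ - ev y g₀) := by
      rw [map_add, map_add]; abel
    rw [h4]
    refine (norm_sub_le _ _).trans ?_
    linarith
  obtain ⟨E, hE, hOE⟩ := hG O hO
  have : Fintype E := hE.fintype
  obtain ⟨S, -, hS, hcov⟩ := (isCompact_univ (X := E → T)).finite_cover_balls
    (e := 1 / 16) (by norm_num)
  have hch : ∀ q : E → T, ∃ c ∈ S, q ∈ Metric.ball c (1 / 16) := by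
    intro q
    have := hcov (Set.mem_univ q)
    simpa using this
  choose c hcS hc using hch
  obtain ⟨x, hx, y, hy, hxy, hcxy⟩ := (hV k).exists_ne_map_eq_of_mapsTo
    (f := fun x => c fun e : E => ev x e) (t := S) (fun x _ => hcS _) hS
  have hE8 : ∀ e : E, ‖ev x e - ev y e‖ ≤ 1 / 8 := by
    intro e
    have h1 := hc fun e : E => ev x e
    have h2 := hc fun e : E => ev y e
    have hcxy' : (c fun e : E => ev x e) = c fun e : E => ev y e := hcxy
    rw [hcxy'] at h1
    rw [Metric.mem_ball] at h1 h2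
    have h3 : dist (fun e : E => ev x e) (fun e : E => ev y e) ≤ 1 / 8 := by
      refine (dist_triangle_right _ _ (c fun e : E => ev y e)).trans ?_
      linarith
    have h4 := (dist_le_pi_dist (fun e : E => ev x e) (fun e : E => ev y e) e).trans h3
    rwa [dist_eq_norm] at h4
  apply hxy
  apply hinj
  ext g
  rw [← sub_eq_zero]
  refine eq_zero_of_small fun n => ?_
  have h1 : n • (ev x g - ev y g) = ev x (n • g) - ev y (n • g) := by
    rw [map_nsmul, map_nsmul, smul_sub]
  rw [h1]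
  have h2 : n • g ∈ O + E := by rw [hOE]; trivial
  obtain ⟨o, ho, e, he, hoe⟩ := h2
  have hoe' : o + e = n • g := hoe
  rw [← hoe', map_add, map_add]
  have h4 : ev x o + ev x e - (ev y o + ev y e) = (ev x o - ev y o) + (ev x e - ev y e) := by abel
  rw [h4]
  refine (norm_add_le _ _).trans ?_
  have h5 := hsmall o ho x hx y hy
  have h6 := hE8 ⟨e, he⟩
  simp only at h6
  linarith

end Pool.Agent.K3h46.BQ
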