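import Mathlib
import Pool.Agent.R821.Bohr

/-!
# Compact subsets of free abelian groups all of whose countable patterns are realised
-/

set_option autoImplicit false

open Filter Topology

namespace Pool.Agent.K3h46.BQ

open Pool.Agent.R821

universe u v

/-- the homomorphism from the free abelian group given by its values at the generators -/
noncomputable def lc {S : Type u} {A : Type v} [AddCommGroup A] (f : S → A) : (S →₀ ℤ) →+ A :=
  (Finsupp.linearCombination ℤ f).toAddMonoidHom

section

variable {S : Type u} {A : Type v} [AddCommGroup A]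

theorem lc_apply (f : S → A) (g : S →₀ ℤ) : lc f g = ∑ s ∈ g.support, g s • f s := rfl

theorem lc_single (f : S → A) (s : S) : lc f (Finsupp.single s 1) = f s := by
  change Finsupp.linearCombination ℤ f (Finsupp.single s 1) = f s
  rw [Finsupp.linearCombination_single, one_smul]

theorem lc_congr {f f' : S → A} {g : S →₀ ℤ} (h : ∀ s ∈ g.support, f s = f' s) : lc f g = lc f' g := by
  rw [lc_apply, lc_apply]
  exact Finset.sum_congr rfl fun s hs => by rw [h s hs]

theorem hom_eq_lc (F : (S →₀ ℤ) →+ A) : F = lc fun s => F (Finsupp.single s 1) := by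
  apply Finsupp.addHom_ext
  intro s n
  have h1 : (Finsupp.single s n : S →₀ ℤ) = n • Finsupp.single s 1 := by
    rw [Finsupp.smul_single, smul_eq_mul, mul_one]
  rw [h1, map_zsmul, map_zsmul, lc_single]

theorem lc_update [DecidableEq S] (f : S → A) (g : S →₀ ℤ) (s : S) (r : A) :
    lc (Function.update f s (f s + r)) g = lc f g + g s • r := by
  have h1 : lc (Function.update f s (f s + r)) = lc f + lc (Function.update 0 s r) := by
    rw [hom_eq_lc (lc f + lc (Function.update 0 s r))]
    congr 1
    funext t
    rw [AddMonoidHom.add_apply, lc_single, lc_single]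
    by_cases h : t = s
    · subst h
      simp
    · simp [Function.update_of_ne h]
  rw [h1, AddMonoidHom.add_apply]
  congr 1
  rw [lc_apply]
  by_cases hs : s ∈ g.support
  · rw [Finset.sum_eq_single_of_mem s hs]
    · simp
    · intro t _ ht
      simp [Function.update_of_ne ht]
  · rw [Finsupp.notMem_support_iff.1 hs, zero_smul]
    refine Finset.sum_eq_zero fun t ht => ?_
    have : t ≠ s := by
      rintro rfl
      exact hs ht
    simp [Function.update_of_ne this]

end

/-- the circle is divisible -/
theorem exists_smul_eq {m : ℤ} (hm : m ≠ 0) (t : T) : ∃ r : T, m • r = t ∧ ‖r‖ ≤ 1 / |(m : ℝ)| := by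
  obtain ⟨x, hx, -, hx2⟩ := exists_real t
  have hm' : (m : ℝ) ≠ 0 := by exact_mod_cast hm
  have hm2 : 0 < |(m : ℝ)| := abs_pos.2 hm'
  refine ⟨((x / m : ℝ) : T), ?_, ?_⟩
  · rw [← AddCircle.coe_zsmul, zsmul_eq_mul, mul_div_cancel₀ _ hm', hx]
  · refine (norm_coe_le _).trans ?_
    rw [abs_div]
    gcongr
    linarith

section

variable {S : Type u}

theorem continuous_lc (g : S →₀ ℤ) : Continuous fun f : S → T => lc f g := by
  simp only [lc_apply]
  exact continuous_finsetSum _ fun s _ => (continuous_zsmul (g s)).comp (continuous_apply s)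

/-- a sequence of distinct elements has dense image under some homomorphism to the circle -/
theorem exists_dense (y : ℕ → S →₀ ℤ) (hy : Function.Injective y) :
    ∃ f : S → T, Dense (Set.range fun n => lc f (y n)) := by
  classical
  let 𝓑 := TopologicalSpace.countableBasis T
  let O : 𝓑 → Set (S → T) := fun U => {f | ∃ n, lc f (y n) ∈ (U : Set T)}
  have hO : ∀ U, IsOpen (O U) := by
    intro U
    have h1 : O U = ⋃ n, (fun f : S → T => lc f (y n)) ⁻¹' (U : Set T) := by
      ext f
      simp [O]
    rw [h1]
    exact isOpen_iUnion fun n =>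
      (TopologicalSpace.isOpen_of_mem_countableBasis U.2).preimage (continuous_lc _)
  have hd : ∀ U, Dense (O U) := by
    intro U f₀
    obtain ⟨u, hu⟩ := TopologicalSpace.nonempty_of_mem_countableBasis U.2
    rw [mem_closure_iff_nhds]
    intro N hN
    rw [nhds_pi, Filter.mem_pi] at hN
    obtain ⟨I, hI, t, ht, hIt⟩ := hN
    have hball : ∀ s : S, ∃ ε : ℝ, 0 < ε ∧ ∀ r : T, ‖r‖ < ε → f₀ s + r ∈ t s := by
      intro s
      obtain ⟨ε, hε, h1⟩ := Metric.mem_nhds_iff.1 (ht s)
      refine ⟨ε, hε, fun r hr => h1 ?_⟩
      rw [Metric.mem_ball, dist_eq_norm, add_sub_cancel_left]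
      exact hr
    choose ε hε hball using hball
    have h0 : ∀ s, f₀ s ∈ t s := fun s => mem_of_mem_nhds (ht s)
    -- it is enough to change one value
    have key : ∀ (n : ℕ) (s : S) (r : T), (s ∈ I → ‖r‖ < ε s) → y n s • r = u - lc f₀ (y n) →
        (N ∩ O U).Nonempty := by
      intro n s r hr hyr
      refine ⟨Function.update f₀ s (f₀ s + r), hIt fun s' hs' => ?_, n, ?_⟩
      · by_cases h : s' = s
        · subst h
          rw [Function.update_self]
          exact hball _ _ (hr hs')
        · rw [Function.update_of_ne h]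
          exact h0 s'
      · rw [lc_update, hyr]
        simpa using hu
    by_cases hcase : ∃ n, ¬ ((y n).support : Set S) ⊆ I
    · obtain ⟨n, hn⟩ := hcase
      obtain ⟨s, hs, hsI⟩ := Set.not_subset.1 hn
      obtain ⟨r, hr, -⟩ := exists_smul_eq (Finsupp.mem_support_iff.1 hs) (u - lc f₀ (y n))
      exact key n s r (fun h => absurd h hsI) hr
    · push Not at hcase
      -- some coordinate is unbounded
      obtain ⟨n, s, hsI, hn⟩ : ∃ n, ∃ s ∈ I, 1 / ε s < |((y n s : ℤ) : ℝ)| := by
        by_contra hcon
        push Not at hcon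
        choose! B hB using fun s : S => (exists_nat_ge (1 / ε s))
        have hfin : (Set.range y).Finite := by
          let J : Finset S := hI.toFinset
          have hfin' : {g : J → ℤ | ∀ s : J, |g s| ≤ (B s : ℤ)}.Finite := by
            have : {g : J → ℤ | ∀ s : J, |g s| ≤ (B s : ℤ)} =
                {g : J → ℤ | ∀ s : J, g s ∈ Set.Icc (-(B s : ℤ)) (B s)} := by
              ext g
              simp only [Set.mem_setOf_eq, Set.mem_Icc, abs_le]
            rw [this]
            exact Set.Finite.pi' fun s : J => Set.finite_Icc (-(B s : ℤ)) (B s : ℤ)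
          refine Set.Finite.of_finite_image (f := fun (g : S →₀ ℤ) (s : J) => g s) (hfin'.subset ?_) ?_
          · rintro _ ⟨_, ⟨n, rfl⟩, rfl⟩ s
            have h1 := (hcon n s (hI.mem_toFinset.1 s.2)).trans (hB s)
            exact_mod_cast h1
          · rintro _ ⟨n, rfl⟩ _ ⟨m, rfl⟩ h
            ext s
            by_cases hs : s ∈ I
            · exact congrFun h ⟨s, hI.mem_toFinset.2 hs⟩
            · have h1 : s ∉ (y n).support := fun h => hs (hcase n h)
              have h2 : s ∉ (y m).support := fun h => hs (hcase m h)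
              rw [Finsupp.notMem_support_iff.1 h1, Finsupp.notMem_support_iff.1 h2]
        exact Set.infinite_range_of_injective hy hfin
      have hm : y n s ≠ 0 := by
        intro h
        rw [h] at hn
        have : 0 < 1 / ε s := by
          have := hε s
          positivity
        simp at hn
        linarith [hε s]
      obtain ⟨r, hr, hr2⟩ := exists_smul_eq hm (u - lc f₀ (y n))
      refine key n s r (fun _ => lt_of_le_of_lt hr2 ?_) hr
      have h1 := hε s
      have h2 : 0 < |((y n s : ℤ) : ℝ)| := lt_trans (by positivity) hn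
      rw [div_lt_iff₀ h1] at hn
      rw [div_lt_iff₀ h2]
      linarith
  have hcount : Countable 𝓑 := (TopologicalSpace.countable_countableBasis T).to_subtype
  have hdense := dense_iInter_of_isOpen hO hd
  obtain ⟨f, hf⟩ := hdense.nonempty
  refine ⟨f, ?_⟩
  rw [(TopologicalSpace.isBasis_countableBasis T).dense_iff]
  intro U hU _
  have h1 := Set.mem_iInter.1 hf ⟨U, hU⟩
  obtain ⟨n, hn⟩ := h1
  exact ⟨_, hn, n, rfl⟩

/-- If a Hausdorff topology on a free abelian group is such that all countable patterns on the generators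
are realised by continuous homomorphisms to the circle, then the compact sets are finite. -/
theorem finite_of_compact [TopologicalSpace (S →₀ ℤ)] [T2Space (S →₀ ℤ)]
    (hpat : ∀ (x : ℕ → S) (f : S → T), ∃ φ : (S →₀ ℤ) →+ T, Continuous φ ∧
      ∀ n, φ (Finsupp.single (x n) 1) = f (x n)) {C : Set (S →₀ ℤ)} (hC : IsCompact C) : C.Finite := by
  classical
  by_contra hinf
  let y : ℕ ↪ C := Set.Infinite.natEmbedding C hinf
  let y' : ℕ → S →₀ ℤ := fun n => y n
  have hy' : Function.Injective y' := Subtype.val_injective.comp y.injective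
  let B : Set S := ⋃ n, ((y' n).support : Set S)
  have hB : B.Countable := Set.countable_iUnion fun n => (y' n).support.countable_toSet
  -- patterns on countable sets
  have hpat' : ∀ (B' : Set S), B'.Countable → ∀ f : S → T, ∃ φ : (S →₀ ℤ) →+ T, Continuous φ ∧
      ∀ g : S →₀ ℤ, (g.support : Set S) ⊆ B' → φ g = lc f g := by
    intro B' hB' f
    rcases B'.eq_empty_or_nonempty with h | h
    · refine ⟨0, continuous_const, fun g hg => ?_⟩
      have : g = 0 := by
        rw [h] at hg
        rw [← Finsupp.support_eq_empty]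
        exact_mod_cast Set.subset_empty_iff.1 hg
      rw [this, map_zero, map_zero]
    · obtain ⟨x, hx⟩ := hB'.exists_eq_range h
      obtain ⟨φ, hφ, hφx⟩ := hpat x f
      refine ⟨φ, hφ, fun g hg => ?_⟩
      rw [hom_eq_lc φ]
      refine lc_congr fun s hs => ?_
      have h1 : s ∈ Set.range x := hx ▸ hg hs
      obtain ⟨n, rfl⟩ := h1
      exact hφx n
  -- the closure of the sequence
  let K := closure (Set.range y')
  have hKC : K ⊆ C := by
    refine closure_minimal ?_ hC.isClosed
    rintro _ ⟨n, rfl⟩
    exact (y n).2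
  have hK : IsCompact K := hC.of_isClosed_subset isClosed_closure hKC
  have hKB : ∀ c ∈ K, (c.support : Set S) ⊆ B := by
    intro c hc s hs
    by_contra hsB
    have hcs := Finsupp.mem_support_iff.1 hs
    obtain ⟨r, hr, -⟩ := exists_smul_eq hcs (((1 / 2 : ℝ)) : T)
    obtain ⟨φ, hφ, h1⟩ := hpat' (B ∪ c.support) (hB.union c.support.countable_toSet)
      (Function.update 0 s r)
    have h2 : ∀ g : S →₀ ℤ, lc (Function.update (0 : S → T) s r) g = g s • r := by
      intro g
      have := lc_update (0 : S → T) g s r
      rw [Pi.zero_apply, zero_add] at this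
      rw [this]
      have h3 : lc (0 : S → T) g = 0 := by
        rw [lc_apply]
        simp
      rw [h3, zero_add]
    have hcl : IsClosed {g | φ g = 0} := isClosed_singleton.preimage hφ
    have hsub : K ⊆ {g | φ g = 0} := by
      refine closure_minimal ?_ hcl
      rintro _ ⟨n, rfl⟩
      change φ (y' n) = 0
      have h4 : ((y' n).support : Set S) ⊆ B := Set.subset_iUnion (fun n => ((y' n).support : Set S)) n
      rw [h1 _ (h4.trans Set.subset_union_left), h2]
      have h5 : s ∉ (y' n).support := fun h => hsB (h4 h)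
      rw [Finsupp.notMem_support_iff.1 h5, zero_smul]
    have h3 : φ c = 0 := hsub hc
    rw [h1 _ Set.subset_union_right, h2, hr] at h3
    rw [AddCircle.coe_eq_zero_iff] at h3
    obtain ⟨m, hm⟩ := h3
    have hm' : (m : ℝ) = 1 / 2 := by simpa using hm
    have h4 : (2 * m : ℝ) = 1 := by rw [hm']; norm_num
    have h5 : (2 * m : ℤ) = 1 := by exact_mod_cast h4
    omega
  have hKcount : K.Countable := by
    have h1 : Countable B := hB.to_subtype
    have h2 : Countable (B →₀ ℤ) := inferInstance
    have h3 : K ⊆ Set.range fun g : B →₀ ℤ => Finsupp.embDomain (Function.Embedding.subtype _) g := by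
      intro c hc
      refine ⟨Finsupp.comapDomain (Subtype.val : B → S) c Subtype.val_injective.injOn, ?_⟩
      refine Finsupp.embDomain_comapDomain (f := Function.Embedding.subtype (· ∈ B)) ?_
      simpa using hKB c hc
    exact (Set.countable_range _).mono h3
  obtain ⟨f, hf⟩ := exists_dense y' hy'
  obtain ⟨φ, hφ, h1⟩ := hpat' B hB f
  have h2 : IsCompact (φ '' K) := hK.image hφ
  have h3 : φ '' K = Set.univ := by
    have h4 : Set.range (fun n => lc f (y' n)) ⊆ φ '' K := by
      rintro _ ⟨n, rfl⟩
      refine ⟨y' n, subset_closure ⟨n, rfl⟩, ?_⟩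
      exact h1 _ (Set.subset_iUnion (fun n => ((y' n).support : Set S)) n)
    have h5 := closure_minimal h4 h2.isClosed
    rw [hf.closure_eq] at h5
    exact Set.univ_subset_iff.1 h5
  have h4 : (Set.univ : Set T).Countable := h3 ▸ hKcount.image φ
  have h5 : Countable T := Set.countable_univ_iff.1 h4
  have h6 : Countable (Set.Ico (0 : ℝ) (0 + 1)) :=
    (AddCircle.equivIco (1 : ℝ) 0).symm.injective.countable
  have h7 := Cardinal.mk_Ico_real (show (0 : ℝ) < 0 + 1 by norm_num)
  have h8 := Cardinal.mk_le_aleph0_iff.2 h6
  rw [h7] at h8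
  exact absurd h8 (not_le.2 Cardinal.aleph0_lt_continuum)

end

end Pool.Agent.K3h46.BQ
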