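import Pool.Agent.K3h46.BQ.Tree
import Pool.Agent.K3h46.BQ.Free
import Pool.Agent.K3h46.BQ.Comp
import Pool.Agent.K3h46.BQ.Dual

/-!
# The group over a precompact Baire group
-/

set_option autoImplicit false

open Filter Topology Pointwise

namespace Pool.Agent.K3h46.BQ

open Pool.Agent.R821

universe u v

/-- the product of a Baire space and a second countable Baire space is a Baire space -/
theorem baire_prod {V : Type u} {Y : Type v} [TopologicalSpace V] [BaireSpace V] [TopologicalSpace Y]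
    [SecondCountableTopology Y] [BaireSpace Y] : BaireSpace (V × Y) := by
  constructor
  intro E hE hEd
  rw [dense_iff_inter_open]
  rintro W hW ⟨⟨v₀, y₀⟩, hvy⟩
  obtain ⟨O, B, hO, hB, hv₀, hy₀, hOB⟩ := isOpen_prod_iff.1 hW v₀ y₀ hvy
  let 𝓑 := TopologicalSpace.countableBasis Y
  have hcount : Countable 𝓑 := (TopologicalSpace.countable_countableBasis Y).to_subtype
  let P : ℕ × 𝓑 → Set V := fun q => {v | ∃ y ∈ (q.2 : Set Y), (v, y) ∈ E q.1}
  have hPo : ∀ q, IsOpen (P q) := by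
    rintro ⟨n, B'⟩
    have h1 : P (n, B') = Prod.fst '' (E n ∩ Prod.snd ⁻¹' (B' : Set Y)) := by
      ext v
      constructor
      · rintro ⟨y, hy, hvy⟩
        exact ⟨(v, y), ⟨hvy, hy⟩, rfl⟩
      · rintro ⟨⟨v', y⟩, ⟨h1, h2⟩, rfl⟩
        exact ⟨y, h2, h1⟩
    rw [h1]
    exact isOpenMap_fst _ ((hE n).inter
      ((TopologicalSpace.isOpen_of_mem_countableBasis B'.2).preimage continuous_snd))
  have hPd : ∀ q, Dense (P q) := by
    rintro ⟨n, B'⟩
    rw [dense_iff_inter_open]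
    rintro O' hO' ⟨v, hv⟩
    obtain ⟨y, hy⟩ := TopologicalSpace.nonempty_of_mem_countableBasis B'.2
    have h1 : IsOpen (O' ×ˢ (B' : Set Y)) :=
      hO'.prod (TopologicalSpace.isOpen_of_mem_countableBasis B'.2)
    obtain ⟨⟨v', y'⟩, ⟨h2, h3⟩, h4⟩ := (dense_iff_inter_open.1 (hEd n)) _ h1 ⟨(v, y), hv, hy⟩
    exact ⟨v', h2, y', h3, h4⟩
  have h1 := dense_iInter_of_isOpen hPo hPd
  obtain ⟨v, hvO, hv⟩ := (dense_iff_inter_open.1 h1) O hO ⟨v₀, hv₀⟩
  rw [Set.mem_iInter] at hv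
  have hso : ∀ n, IsOpen {y : Y | (v, y) ∈ E n} := fun n => (hE n).preimage (by fun_prop)
  have hsd : ∀ n, Dense {y : Y | (v, y) ∈ E n} := by
    intro n
    rw [(TopologicalSpace.isBasis_countableBasis Y).dense_iff]
    intro B' hB' _
    obtain ⟨y, hy, hvy⟩ := hv (n, ⟨B', hB'⟩)
    exact ⟨y, hy, hvy⟩
  have h2 := dense_iInter_of_isOpen_nat hso hsd
  obtain ⟨y, hyB, hy⟩ := (dense_iff_inter_open.1 h2) B hB ⟨y₀, hy₀⟩
  rw [Set.mem_iInter] at hy
  exact ⟨(v, y), hOB ⟨hvO, hyB⟩, Set.mem_iInter.2 hy⟩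

section

variable {V : Type u} [AddCommGroup V]

/-- the homomorphism onto `V` -/
noncomputable def pr : (Tr V →₀ ℤ) →+ V := lc lab

/-- the characters -/
noncomputable def ps (a : Tr V) : (Tr V →₀ ℤ) →+ T := lc fun x => M x a

theorem exists_col_set {B : Set (Tr V)} (hB : B.Countable) (f : Tr V → T) :
    ∃ a : Tr V, ∀ x ∈ B, M x a = f x := by
  rcases B.eq_empty_or_nonempty with rfl | h
  · exact ⟨.leaf, fun x hx => hx.elim⟩
  · obtain ⟨x, rfl⟩ := hB.exists_eq_range h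
    obtain ⟨a, ha⟩ := exists_col x f
    refine ⟨a, ?_⟩
    rintro _ ⟨n, rfl⟩
    exact ha n

theorem exists_row_set (v : V) {A : Set (Tr V)} (hA : A.Countable) (f : Tr V → T) :
    ∃ x : Tr V, lab x = v ∧ ∀ a ∈ A, M x a = f a := by
  rcases A.eq_empty_or_nonempty with rfl | h
  · exact ⟨.node v (fun _ => .leaf) 0, rfl, fun x hx => hx.elim⟩
  · obtain ⟨a, rfl⟩ := hA.exists_eq_range h
    obtain ⟨x, hx, hxa⟩ := exists_row v a f
    refine ⟨x, hx, ?_⟩
    rintro _ ⟨n, rfl⟩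
    exact hxa n

theorem exists_row_elt (v : V) {A : Set (Tr V)} (hA : A.Countable) (f : Tr V → T) :
    ∃ g : Tr V →₀ ℤ, pr g = v ∧ ∀ a ∈ A, ps a g = f a := by
  obtain ⟨x, hx, hxa⟩ := exists_row_set v hA f
  refine ⟨Finsupp.single x 1, ?_, fun a ha => ?_⟩
  · rw [pr, lc_single, hx]
  · rw [ps, lc_single, hxa a ha]

variable [TopologicalSpace V]

/-- the embedding -/
noncomputable def emb (V : Type u) [AddCommGroup V] : (Tr V →₀ ℤ) →+ V × (Tr V → T) :=
  AddMonoidHom.prod pr (AddMonoidHom.mk' (fun g a => ps a g) fun g h => by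
    funext a; exact map_add _ _ _)

/-- the topology -/
@[reducible] noncomputable def topF (V : Type u) [AddCommGroup V] [TopologicalSpace V] :
    TopologicalSpace (Tr V →₀ ℤ) :=
  TopologicalSpace.induced (emb V) inferInstance

theorem emb_fst (g : Tr V →₀ ℤ) : (emb V g).1 = pr g := rfl

theorem emb_snd (g : Tr V →₀ ℤ) (a : Tr V) : (emb V g).2 a = ps a g := rfl

theorem emb_injective : Function.Injective (emb V) := by
  classical
  rw [injective_iff_map_eq_zero]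
  intro g hg
  by_contra hne
  obtain ⟨s, hs⟩ := Finsupp.support_nonempty_iff.2 hne
  obtain ⟨r, hr, -⟩ := exists_smul_eq (Finsupp.mem_support_iff.1 hs) (((1 / 2 : ℝ)) : T)
  obtain ⟨a, ha⟩ := exists_col_set g.support.countable_toSet (Function.update (0 : Tr V → T) s r)
  have h1 : ps a g = 0 := by
    rw [← emb_snd, hg]
    rfl
  have h2 : ps a g = ((1 / 2 : ℝ) : T) := by
    rw [ps, lc_congr (f' := Function.update (0 : Tr V → T) s r) fun x hx => ha x hx, lc_apply,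
      Finset.sum_eq_single_of_mem s hs]
    · rw [Function.update_self, hr]
    · intro t _ ht
      rw [Function.update_of_ne ht]
      simp
  rw [h1] at h2
  have h3 := h2.symm
  rw [AddCircle.coe_eq_zero_iff] at h3
  obtain ⟨m, hm⟩ := h3
  have hm' : (m : ℝ) = 1 / 2 := by simpa using hm
  have h4 : (2 * m : ℝ) = 1 := by rw [hm']; norm_num
  have h5 : (2 * m : ℤ) = 1 := by exact_mod_cast h4
  omega

attribute [local instance] topF

theorem emb_inducing : IsInducing (emb V) := ⟨rfl⟩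

theorem continuous_pr : Continuous (pr : (Tr V →₀ ℤ) →+ V) :=
  continuous_fst.comp emb_inducing.continuous

theorem continuous_ps (a : Tr V) : Continuous (ps a) :=
  (continuous_apply a).comp (continuous_snd.comp emb_inducing.continuous)

/-- the coordinates in a set -/
noncomputable def co (A : Set (Tr V)) (g : Tr V →₀ ℤ) : V × (A → T) := (pr g, fun a => ps a g)

theorem continuous_co (A : Set (Tr V)) : Continuous (co A) :=
  continuous_pr.prodMk (continuous_pi fun a => continuous_ps _)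

theorem co_surjective {A : Set (Tr V)} (hA : A.Countable) : Function.Surjective (co A) := by
  classical
  rintro ⟨v, y⟩
  obtain ⟨g, h1, h2⟩ := exists_row_elt v hA fun a => if h : a ∈ A then y ⟨a, h⟩ else 0
  refine ⟨g, Prod.ext h1 ?_⟩
  funext a
  change ps a g = y a
  rw [h2 a a.2, dif_pos a.2]

/-- a basic open set -/
def bs (O : Set V) (I : Finset (Tr V)) (t : Tr V → Set T) : Set (Tr V →₀ ℤ) :=
  {g | pr g ∈ O ∧ ∀ a ∈ I, ps a g ∈ t a}

theorem isOpen_bs {O : Set V} (hO : IsOpen O) (I : Finset (Tr V)) {t : Tr V → Set T}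
    (ht : ∀ a ∈ I, IsOpen (t a)) : IsOpen (bs O I t) := by
  have h1 : bs O I t = pr ⁻¹' O ∩ ⋂ a ∈ I, ps a ⁻¹' t a := by
    ext g
    simp [bs]
  rw [h1]
  exact (hO.preimage continuous_pr).inter
    (isOpen_biInter_finset fun a ha => (ht a ha).preimage (continuous_ps a))

theorem exists_bs {W : Set (Tr V →₀ ℤ)} (hW : IsOpen W) {g : Tr V →₀ ℤ} (hg : g ∈ W) :
    ∃ (O : Set V) (I : Finset (Tr V)) (t : Tr V → Set T), IsOpen O ∧ (∀ a ∈ I, IsOpen (t a)) ∧
      g ∈ bs O I t ∧ bs O I t ⊆ W := by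
  obtain ⟨W', hW', rfl⟩ := emb_inducing.isOpen_iff.1 hW
  obtain ⟨O, B, hO, hB, h1, h2, h3⟩ := isOpen_prod_iff.1 hW' (emb V g).1 (emb V g).2 hg
  obtain ⟨I, t, h4, h5⟩ := isOpen_pi_iff.1 hB _ h2
  refine ⟨O, I, t, hO, fun a ha => (h4 a ha).1, ⟨h1, fun a ha => (h4 a ha).2⟩, ?_⟩
  rintro g' ⟨h6, h7⟩
  exact h3 ⟨h6, h5 fun a ha => h7 a ha⟩

theorem isOpenMap_co {A : Set (Tr V)} (hA : A.Countable) : IsOpenMap (co A) := by
  classical
  intro W hW
  rw [isOpen_iff_mem_nhds]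
  rintro _ ⟨g, hg, rfl⟩
  obtain ⟨O, I, t, hO, ht, ⟨h1, h2⟩, h3⟩ := exists_bs hW hg
  have h4 : IsOpen {p : V × (A → T) | p.1 ∈ O ∧ ∀ a : A, (a : Tr V) ∈ I → p.2 a ∈ t a} := by
    have h5 : {p : V × (A → T) | p.1 ∈ O ∧ ∀ a : A, (a : Tr V) ∈ I → p.2 a ∈ t a} =
        Prod.fst ⁻¹' O ∩ ⋂ a ∈ {a : A | (a : Tr V) ∈ I}, (fun p : V × (A → T) => p.2 a) ⁻¹' t a := by
      ext p
      simp
    rw [h5]
    refine (hO.preimage continuous_fst).inter (Set.Finite.isOpen_biInter ?_ fun a ha => ?_)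
    · exact (I.finite_toSet.preimage Subtype.val_injective.injOn)
    · exact (ht a ha).preimage ((continuous_apply a).comp continuous_snd)
  refine mem_of_superset (h4.mem_nhds ⟨h1, fun a ha => h2 a ha⟩) ?_
  rintro ⟨v, y⟩ ⟨h6, h7⟩
  obtain ⟨g', h8, h9⟩ := exists_row_elt v (hA.union I.countable_toSet)
    fun a => if h : a ∈ A then y ⟨a, h⟩ else ps a g
  refine ⟨g', h3 ⟨by rw [h8]; exact h6, fun a ha => ?_⟩, Prod.ext h8 ?_⟩
  · rw [h9 a (Or.inr ha)]
    by_cases h : a ∈ A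
    · rw [dif_pos h]
      exact h7 ⟨a, h⟩ ha
    · rw [dif_neg h]
      exact h2 a ha
  · funext a
    change ps a g' = y a
    rw [h9 a (Or.inl a.2), dif_pos a.2]

theorem isOpenMap_pr : IsOpenMap (pr : (Tr V →₀ ℤ) →+ V) := by
  have h1 : IsOpenMap (co (∅ : Set (Tr V))) := isOpenMap_co Set.countable_empty
  exact isOpenMap_fst.comp h1

variable [IsTopologicalAddGroup V]

theorem topGroup : IsTopologicalAddGroup (Tr V →₀ ℤ) := topologicalAddGroup_induced (emb V)

attribute [local instance] topGroup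

theorem t2 [T2Space V] : T2Space (Tr V →₀ ℤ) :=
  (⟨emb_inducing, emb_injective⟩ : IsEmbedding (emb V)).t2Space

theorem preC (h : PreC V) : PreC (Tr V →₀ ℤ) := by
  obtain ⟨K, _, _, _, _, _, i, hi, -⟩ := exists_completion V h
  intro U hU
  let φ : (Tr V →₀ ℤ) →+ K × (Tr V → T) :=
    (AddMonoidHom.prodMap i (AddMonoidHom.id _)).comp (emb V)
  have hφ : IsInducing φ := (hi.prodMap (IsInducing.id)).comp emb_inducing
  exact totBdd_of_inducing φ hφ U hU

/-- **The Baire property.** -/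
theorem baireSpace [BaireSpace V] (h : PreC V) : BaireSpace (Tr V →₀ ℤ) := by
  classical
  have hP := preC h
  -- dense open sets contain dense open sets which depend on countably many coordinates
  have key : ∀ D : Set (Tr V →₀ ℤ), IsOpen D → Dense D → ∃ (A : Set (Tr V)) (W : Set (Tr V →₀ ℤ)),
      A.Countable ∧ IsOpen W ∧ Dense W ∧ W ⊆ D ∧
      ∀ g g', (∀ a ∈ A, ps a g = ps a g') → pr g = pr g' → g ∈ W → g' ∈ W := by
    intro D hD hDd
    let 𝒮 : Set (Set (Set (Tr V →₀ ℤ))) := {c | (∀ B ∈ c, B ⊆ D ∧ B.Nonempty ∧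
      ∃ (O : Set V) (I : Finset (Tr V)) (t : Tr V → Set T), IsOpen O ∧ (∀ a ∈ I, IsOpen (t a)) ∧
        B = bs O I t) ∧ c.PairwiseDisjoint id}
    obtain ⟨c, hc⟩ : ∃ c, Maximal (· ∈ 𝒮) c := by
      apply zorn_subset
      intro C hC hchain
      refine ⟨⋃₀ C, ⟨?_, ?_⟩, fun s hs => Set.subset_sUnion_of_mem hs⟩
      · rintro B ⟨c, hcC, hBc⟩
        exact (hC hcC).1 B hBc
      · rintro B ⟨c, hcC, hBc⟩ B' ⟨c', hc'C, hBc'⟩ hne
        rcases hchain.total hcC hc'C with h1 | h1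
        · exact (hC hc'C).2 (h1 hBc) hBc' hne
        · exact (hC hcC).2 hBc (h1 hBc') hne
    obtain ⟨⟨hc1, hc2⟩, hcmax⟩ := hc
    choose! hBD hBne O I t hO ht hB using hc1
    have hcc : Countable c := by
      refine countable_of_disjoint hP (fun B : c => (B : Set (Tr V →₀ ℤ))) (fun B => ?_)
        (fun B => hBne B B.2) fun B B' hne => hc2 B.2 B'.2 (fun h => hne (Subtype.ext h))
      rw [hB B B.2]
      exact isOpen_bs (hO B B.2) _ (ht B B.2)
    refine ⟨⋃ B ∈ c, (I B : Set (Tr V)), ⋃₀ c, ?_, ?_, ?_, ?_, ?_⟩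
    · exact (Set.countable_coe_iff.1 hcc).biUnion fun B _ => (I B).countable_toSet
    · refine isOpen_sUnion fun B hBc => ?_
      rw [hB B hBc]
      exact isOpen_bs (hO B hBc) _ (ht B hBc)
    · rw [dense_iff_inter_open]
      intro N hN hNne
      obtain ⟨g, hgN, hgD⟩ := (dense_iff_inter_open.1 hDd) N hN hNne
      obtain ⟨O', I', t', h1, h2, h3, h4⟩ := exists_bs (hN.inter hD) (⟨hgN, hgD⟩ : g ∈ N ∩ D)
      by_contra hcon
      have hdisj : ∀ B ∈ c, Disjoint (bs O' I' t') B := by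
        intro B hBc
        rw [Set.disjoint_left]
        intro x hx hxB
        exact hcon ⟨x, (h4 hx).1, B, hBc, hxB⟩
      have h5 : insert (bs O' I' t') c ∈ 𝒮 := by
        refine ⟨?_, ?_⟩
        · rintro B (rfl | hBc)
          · exact ⟨fun x hx => (h4 hx).2, ⟨g, h3⟩, O', I', t', h1, h2, rfl⟩
          · exact ⟨hBD B hBc, hBne B hBc, O B, I B, t B, hO B hBc, ht B hBc, hB B hBc⟩
        · rw [Set.pairwiseDisjoint_insert]
          exact ⟨hc2, fun B hBc _ => hdisj B hBc⟩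
      have h6 : bs O' I' t' ∈ c := hcmax h5 (Set.subset_insert _ _) (Set.mem_insert _ _)
      exact Set.disjoint_left.1 (hdisj _ h6) h3 h3
    · rintro g ⟨B, hBc, hgB⟩
      exact hBD B hBc hgB
    · rintro g g' h1 h2 ⟨B, hBc, hgB⟩
      refine ⟨B, hBc, ?_⟩
      rw [hB B hBc] at hgB ⊢
      refine ⟨by rw [← h2]; exact hgB.1, fun a ha => ?_⟩
      rw [← h1 a (Set.mem_biUnion hBc ha)]
      exact hgB.2 a ha
  constructor
  intro D hD hDd
  choose A W hA hW hWd hWD hWA using fun n => key (D n) (hD n) (hDd n)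
  rw [dense_iff_inter_open]
  rintro N hN ⟨g₀, hg₀⟩
  obtain ⟨O, I, t, h1, h2, h3, h4⟩ := exists_bs hN hg₀
  let A' : Set (Tr V) := (⋃ n, A n) ∪ I
  have hA' : A'.Countable := (Set.countable_iUnion hA).union I.countable_toSet
  have hcA' : Countable A' := hA'.to_subtype
  have hB : BaireSpace (V × (A' → T)) := baire_prod
  have h5 : ∀ n, IsOpen (co A' '' W n) := fun n => isOpenMap_co hA' _ (hW n)
  have h6 : ∀ n, Dense (co A' '' W n) := fun n =>
    (co_surjective hA').denseRange.dense_image (continuous_co A') (hWd n)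
  have h7 := dense_iInter_of_isOpen_nat h5 h6
  have h8 : IsOpen (co A' '' bs O I t) := isOpenMap_co hA' _ (isOpen_bs h1 _ h2)
  obtain ⟨p, hp1, hp2⟩ := (dense_iff_inter_open.1 h7) _ h8 ⟨_, g₀, h3, rfl⟩
  obtain ⟨g, hg, rfl⟩ := hp1
  rw [Set.mem_iInter] at hp2
  refine ⟨g, h4 hg, Set.mem_iInter.2 fun n => hWD n ?_⟩
  obtain ⟨g', hg', hgg'⟩ := hp2 n
  refine hWA n g' g (fun a ha => ?_) ?_ hg'
  · have h9 : a ∈ A' := Or.inl (Set.mem_iUnion.2 ⟨n, ha⟩)
    exact congrFun (congrArg Prod.snd hgg') ⟨a, h9⟩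
  · exact congrArg Prod.fst hgg'

/-- the compact sets are finite -/
theorem finite_compact [T2Space V] {C : Set (Tr V →₀ ℤ)} (hC : IsCompact C) : C.Finite := by
  have h1 : T2Space (Tr V →₀ ℤ) := t2
  refine finite_of_compact (fun x f => ?_) hC
  obtain ⟨a, ha⟩ := exists_col x f
  refine ⟨ps a, continuous_ps a, fun n => ?_⟩
  rw [ps, lc_single, ha]

end

end Pool.Agent.K3h46.BQ
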