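import Pool.Agent.K3h46.BQ.Baire
import Pool.Agent.R821.BohrBoolean

/-!
# Reflexivity
-/

set_option autoImplicit false

open Filter Topology Pointwise

namespace Pool.Agent.K3h46.BQ

open Pool.Agent.R821

universe u v

/-- if all compact sets are finite then the compact-open topology is the topology of pointwise
convergence -/
theorem inducing_coe {Y Z : Type*} [TopologicalSpace Y] [TopologicalSpace Z]
    (h : ∀ K : Set Y, IsCompact K → K.Finite) : IsInducing fun (f : C(Y, Z)) (y : Y) => f y := by
  constructor
  apply le_antisymm
  · apply continuous_iff_le_induced.1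
    exact continuous_pi fun y => continuous_eval_const y
  · rw [ContinuousMap.compactOpen_eq]
    apply le_generateFrom
    rintro _ ⟨K, hK, U, hU, rfl⟩
    have h1 : {f : C(Y, Z) | Set.MapsTo f K U} =
        (fun (f : C(Y, Z)) (y : Y) => f y) ⁻¹' (⋂ y ∈ K, {g : Y → Z | g y ∈ U}) := by
      ext f
      simp [Set.MapsTo]
    have h2 : IsOpen (⋂ y ∈ K, {g : Y → Z | g y ∈ U}) := by
      refine (h K hK).isOpen_biInter fun y _ => ?_
      have hU' : IsOpen U := hU
      exact hU'.preimage (continuous_apply y)
    exact isOpen_induced_iff.2 ⟨_, h2, h1.symm⟩

theorem dual_inducing {A : Type*} [Monoid A] [TopologicalSpace A]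
    (hK : ∀ K : Set A, IsCompact K → K.Finite) :
    IsInducing fun (χ : PontryaginDual A) (a : A) => χ a :=
  (inducing_coe hK).comp (ContinuousMonoidHom.isInducing_toContinuousMap A Circle)

/-- **Reflexivity.** Let `G` be an abelian group with a topology which is induced by its continuous
characters, such that the compact subsets of `G` and of its dual are finite. Then `G` is reflexive. -/
theorem reflexive_of_finite {G : Type u} [CommGroup G] [TopologicalSpace G]
    (hind : IsInducing fun (g : G) (χ : PontryaginDual G) => χ g)
    (hsep : ∀ g : G, (∀ χ : PontryaginDual G, χ g = 1) → g = 1)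
    (hK : ∀ K : Set G, IsCompact K → K.Finite)
    (hK' : ∀ K : Set (PontryaginDual G), IsCompact K → K.Finite) : Reflexive G := by
  classical
  have hP := dual_inducing hK
  have hPP := dual_inducing hK'
  have hev : ∀ g : G, Continuous fun χ : PontryaginDual G => χ g := fun g =>
    (continuous_apply g).comp hP.continuous
  let α : G →* PontryaginDual (PontryaginDual G) :=
    { toFun := fun g =>
        { toFun := fun χ => χ g
          map_one' := rfl
          map_mul' := fun _ _ => rfl
          continuous_toFun := hev g }
      map_one' := by
        ext χ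
        exact congrArg _ (map_one χ)
      map_mul' := fun g h => by
        ext χ
        exact congrArg _ (map_mul χ g h) }
  have hα : ∀ g χ, α g χ = χ g := fun g χ => rfl
  have hαinj : Function.Injective α := by
    rw [injective_iff_map_eq_one]
    intro g hg
    refine hsep g fun χ => ?_
    rw [← hα, hg]
    rfl
  have hαind : IsInducing α := by
    rw [← hPP.of_comp_iff]
    exact hind
  have hαsurj : Function.Surjective α := by
    intro θ
    let A := Additive (PontryaginDual G)
    let e : Additive G →+ (A →+ T) :=
      { toFun := fun g =>
          { toFun := fun χ => clog ((Additive.toMul χ : PontryaginDual G) (Additive.toMul g))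
            map_zero' := clog_one
            map_add' := fun χ χ' => clog_mul _ _ }
        map_zero' := by
          ext χ
          change clog ((Additive.toMul χ : PontryaginDual G) 1) = 0
          rw [map_one, clog_one]
        map_add' := fun g h => by
          ext χ
          change clog ((Additive.toMul χ : PontryaginDual G) (Additive.toMul g * Additive.toMul h)) = _
          rw [map_mul, clog_mul]
          rfl }
    have hemb : IsInducing fun (f : G → Circle) (g : G) => clog (f g) := by
      have h1 : IsInducing clog :=
        (AddCircle.homeomorphCircle (T := (1 : ℝ)) one_ne_zero).symm.isInducing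
      have h2 : IsInducing (Pi.map fun _ : G => clog) := IsInducing.piMap fun _ => h1
      exact h2
    have hindA : IsInducing fun (χ : A) (g : Additive G) => e g χ := hemb.comp hP
    let v : A →+ T :=
      { toFun := fun χ => clog (θ (Additive.toMul χ))
        map_zero' := by
          change clog (θ 1) = 0
          rw [map_one, clog_one]
        map_add' := fun χ χ' => by
          change clog (θ (Additive.toMul χ * Additive.toMul χ')) = _
          rw [map_mul, clog_mul] }
    have hv : Continuous v := continuous_clog.comp θ.continuous_toFun
    obtain ⟨g, hg⟩ := char_of_continuous e hindA v hv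
    refine ⟨Additive.toMul g, ?_⟩
    ext χ
    have h1 : e g (Additive.ofMul χ) = v (Additive.ofMul χ) := by rw [hg]
    have h2 : clog (χ (Additive.toMul g)) = clog (θ χ) := h1
    have h3 := congrArg (fun t => AddCircle.toCircle t) h2
    simp only [toCircle_clog] at h3
    rw [hα, h3]
  let E : G ≃* PontryaginDual (PontryaginDual G) := MulEquiv.ofBijective α ⟨hαinj, hαsurj⟩
  refine ⟨{ toMulEquiv := E
            continuous_toFun := hαind.continuous
            continuous_invFun := ?_ }, fun g χ => rfl⟩
  rw [hαind.continuous_iff]
  have : (α ∘ E.invFun) = id := by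
    funext θ
    exact E.apply_symm_apply θ
  rw [this]
  exact continuous_id

/-- the dual of a precompact Baire group has only finite compact subsets, even in the topology of
pointwise convergence -/
theorem finite_compact_dual {G : Type u} [AddCommGroup G] [TopologicalSpace G]
    [IsTopologicalAddGroup G] [BaireSpace G] (h : PreC G)
    (K : Set (PontryaginDual (Multiplicative G))) (hK : IsCompact K) : K.Finite := by
  have : CompactSpace K := isCompact_iff_compactSpace.1 hK
  let ev : K → G →+ T := fun χ =>
    { toFun := fun g => clog ((χ : PontryaginDual (Multiplicative G)) (Multiplicative.ofAdd g))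
      map_zero' := by
        change clog ((χ : PontryaginDual (Multiplicative G)) 1) = 0
        rw [map_one, clog_one]
      map_add' := fun g g' => by
        rw [ofAdd_add, map_mul, clog_mul] }
  have h1 : Finite K := by
    refine finite_of_compact_chars h ev (fun χ => ?_) (fun g => ?_) ?_
    · exact continuous_clog.comp (χ : PontryaginDual (Multiplicative G)).continuous_toFun
    · have h2 : Continuous fun χ : PontryaginDual (Multiplicative G) => χ (Multiplicative.ofAdd g) := by
        have h3 := (ContinuousMonoidHom.isInducing_toContinuousMap (Multiplicative G) Circle).continuous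
        exact (continuous_eval_const (F := C(Multiplicative G, Circle))
          (Multiplicative.ofAdd g)).comp h3
      exact continuous_clog.comp (h2.comp continuous_subtype_val)
    · intro χ χ' hχ
      apply Subtype.ext
      ext g
      have h2 : ev χ (Multiplicative.toAdd g) = ev χ' (Multiplicative.toAdd g) := by rw [hχ]
      have h3 : clog ((χ : PontryaginDual (Multiplicative G)) g) =
          clog ((χ' : PontryaginDual (Multiplicative G)) g) := h2
      have h4 := congrArg (fun t => AddCircle.toCircle t) h3
      simp only [toCircle_clog] at h4
      rw [h4]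
  exact Set.toFinite K

section

variable {V : Type u} [AddCommGroup V] [TopologicalSpace V] [IsTopologicalAddGroup V] [T2Space V]

attribute [local instance] topF topGroup

/-- the group over `V` is reflexive -/
theorem reflexive [BaireSpace V] (h : PreC V) : Reflexive (Multiplicative (Tr V →₀ ℤ)) := by
  have hT2 : T2Space (Tr V →₀ ℤ) := t2
  have hB : BaireSpace (Tr V →₀ ℤ) := baireSpace h
  have hP : PreC (Tr V →₀ ℤ) := preC h
  have hind := inducing_chars (Tr V →₀ ℤ) hP
  -- characters as elements of the dual
  let c : chars (Tr V →₀ ℤ) → PontryaginDual (Multiplicative (Tr V →₀ ℤ)) := fun χ =>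
    { toFun := fun g => AddCircle.toCircle ((χ : (Tr V →₀ ℤ) →+ T) (Multiplicative.toAdd g))
      map_one' := by
        change AddCircle.toCircle ((χ : (Tr V →₀ ℤ) →+ T) 0) = 1
        rw [map_zero, AddCircle.toCircle_zero]
      map_mul' := fun g g' => by
        rw [toAdd_mul, map_add, AddCircle.toCircle_add]
      continuous_toFun := AddCircle.continuous_toCircle.comp χ.2 }
  have hc : ∀ (χ : chars (Tr V →₀ ℤ)) (g : Tr V →₀ ℤ),
      clog (c χ (Multiplicative.ofAdd g)) = (χ : (Tr V →₀ ℤ) →+ T) g := fun χ g => clog_toCircle _
  have hind' : IsInducing fun (g : Multiplicative (Tr V →₀ ℤ))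
      (χ : PontryaginDual (Multiplicative (Tr V →₀ ℤ))) => χ g := by
    let q : (PontryaginDual (Multiplicative (Tr V →₀ ℤ)) → Circle) → (chars (Tr V →₀ ℤ) → T) :=
      fun f χ => clog (f (c χ))
    have hq : Continuous q := continuous_pi fun χ => continuous_clog.comp (continuous_apply _)
    refine IsInducing.of_comp (g := q) (continuous_pi fun χ => χ.continuous_toFun) hq ?_
    have h1 : (q ∘ fun (g : Multiplicative (Tr V →₀ ℤ))
        (χ : PontryaginDual (Multiplicative (Tr V →₀ ℤ))) => χ g) =
        fun (g : Multiplicative (Tr V →₀ ℤ)) (χ : chars (Tr V →₀ ℤ)) =>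
          (χ : (Tr V →₀ ℤ) →+ T) (Multiplicative.toAdd g) := by
      funext g χ
      exact hc χ (Multiplicative.toAdd g)
    rw [h1]
    exact hind
  have hsep : ∀ g : Multiplicative (Tr V →₀ ℤ),
      (∀ χ : PontryaginDual (Multiplicative (Tr V →₀ ℤ)), χ g = 1) → g = 1 := by
    intro g hg
    have hinj : Function.Injective fun (v : Tr V →₀ ℤ) (χ : chars (Tr V →₀ ℤ)) =>
      (χ : (Tr V →₀ ℤ) →+ T) v := hind.injective
    apply Multiplicative.toAdd.injective
    apply hinj
    funext χ
    have h1 := hc χ (Multiplicative.toAdd g)
    have h2 : c χ (Multiplicative.ofAdd (Multiplicative.toAdd g)) = 1 := hg (c χ)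
    rw [h2, clog_one] at h1
    exact h1.symm.trans (map_zero (χ : (Tr V →₀ ℤ) →+ T)).symm
  refine reflexive_of_finite hind' hsep (fun K hK => ?_) (finite_compact_dual hP)
  have hK2 : IsCompact (Multiplicative.ofAdd ⁻¹' K : Set (Tr V →₀ ℤ)) := hK
  have h3 := finite_compact hK2
  exact h3

end

end Pool.Agent.K3h46.BQ
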