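import Mathlib
import Pool.Agent.R821.Duality

/-!
# A matrix all of whose countable row and column patterns are realised
-/

set_option autoImplicit false

namespace Pool.Agent.K3h46.BQ

open Pool.Agent.R821

universe u

/-- well-founded trees with countable branching, with labels in `V` and values in the circle -/
inductive Tr (V : Type u) : Type u
  | leaf : Tr V
  | node : V → (ℕ → Tr V) → (ℕ → T) → Tr V

variable {V : Type u}

/-- the label at the root -/
def lab [Zero V] : Tr V → V
  | .leaf => 0
  | .node v _ _ => v

/-- `x` is a child of `y` -/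
def IsChild : Tr V → Tr V → Prop
  | _, .leaf => False
  | x, .node _ c _ => ∃ n, c n = x

open Classical in
/-- the value of `y` at its child `x` -/
noncomputable def val : Tr V → Tr V → T
  | .leaf, _ => 0
  | .node _ c t, x => if h : ∃ n, c n = x then t (Nat.find h) else 0

theorem wf_child : WellFounded (IsChild (V := V)) := by
  constructor
  intro y
  induction y with
  | leaf => exact Acc.intro _ fun x hx => hx.elim
  | node v c t ih =>
    refine Acc.intro _ ?_
    rintro x ⟨n, rfl⟩
    exact ih n

theorem val_of_not {x y : Tr V} (h : ¬ IsChild x y) : val y x = 0 := by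
  cases y with
  | leaf => rfl
  | node v c t => exact dif_neg h

/-- the matrix -/
noncomputable def M (x a : Tr V) : T := val x a + val a x

theorem val_node (v : V) (c : ℕ → Tr V) (f : Tr V → T) (n : ℕ) :
    val (.node v c fun k => f (c k)) (c n) = f (c n) := by
  classical
  have h : ∃ k, c k = c n := ⟨n, rfl⟩
  have h1 : val (.node v c fun k => f (c k)) (c n) = f (c (Nat.find h)) := dif_pos h
  rw [h1, Nat.find_spec h]

/-- columns realise all countable patterns -/
theorem exists_col [Zero V] (x : ℕ → Tr V) (f : Tr V → T) : ∃ a : Tr V, ∀ n, M (x n) a = f (x n) := by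
  refine ⟨.node 0 x fun k => f (x k), fun n => ?_⟩
  have h1 : IsChild (x n) (.node 0 x fun k => f (x k)) := ⟨n, rfl⟩
  have h2 : ¬ IsChild (.node 0 x fun k => f (x k)) (x n) := wf_child.asymmetric _ _ h1
  rw [M, val_of_not h2, val_node, zero_add]

/-- rows realise all countable patterns -/
theorem exists_row [Zero V] (v : V) (a : ℕ → Tr V) (f : Tr V → T) :
    ∃ x : Tr V, lab x = v ∧ ∀ n, M x (a n) = f (a n) := by
  refine ⟨.node v a fun k => f (a k), rfl, fun n => ?_⟩
  have h1 : IsChild (a n) (.node v a fun k => f (a k)) := ⟨n, rfl⟩
  have h2 : ¬ IsChild (.node v a fun k => f (a k)) (a n) := wf_child.asymmetric _ _ h1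
  rw [M, val_of_not h2, val_node, add_zero]

end Pool.Agent.K3h46.BQ
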